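import Pool.Agent.E8helper1.TX.Side

/-!
# A character of absolute value one has a square root on a subgroup of finite index
-/

set_option autoImplicit false

namespace Pool.Agent.E8helper3.TX

open Pool.Agent.E8helper1.TX

section

variable (ℓ : ℕ) [hl : Fact ℓ.Prime]

/-- the condition for Hensel's lemma -/
theorem two_sq (u : ℤ_[ℓ]) (hu : ‖u - 1‖ ≤ (ℓ : ℝ) ^ (-3 : ℤ)) : ‖u - 1‖ < ‖(2 : ℤ_[ℓ])‖ ^ 2 := by
  have hl1 : (1 : ℝ) < ℓ := by exact_mod_cast hl.out.one_lt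
  have hl0 : (0 : ℝ) < ℓ := by linarith
  refine lt_of_le_of_lt hu ?_
  by_cases h2 : ℓ = 2
  · subst h2
    have h3 : ‖(2 : ℤ_[2])‖ = 2⁻¹ := by
      have := PadicInt.norm_p (p := 2)
      simpa using this
    rw [h3]
    norm_num
  · have h3 : ‖(2 : ℤ_[ℓ])‖ = 1 := by
      have h4 := (PadicInt.norm_natCast_eq_one_iff (p := ℓ) (n := 2)).2
        ((Nat.coprime_primes hl.out Nat.prime_two).2 h2)
      simpa using h4
    rw [h3, one_pow]
    rw [zpow_neg, inv_lt_one₀ (by positivity)]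
    exact one_lt_pow₀ hl1 (by norm_num)

/-- the square root near `1` -/
theorem exists_root (u : ℤ_[ℓ]) (hu : ‖u - 1‖ ≤ (ℓ : ℝ) ^ (-3 : ℤ)) :
    ∃ z : ℤ_[ℓ], z ^ 2 = u ∧ ‖z - 1‖ < ‖(2 : ℤ_[ℓ])‖ ∧
      ∀ z' : ℤ_[ℓ], z' ^ 2 = u → ‖z' - 1‖ < ‖(2 : ℤ_[ℓ])‖ → z' = z := by
  have h1 := two_sq ℓ u hu
  have hF : ∀ z : ℤ_[ℓ], Polynomial.aeval z (Polynomial.X ^ 2 - Polynomial.C u : Polynomial ℤ_[ℓ]) =
      z ^ 2 - u := by
    intro z; simp
  have hF' : ∀ z : ℤ_[ℓ], Polynomial.aeval z (Polynomial.derivative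
      (Polynomial.X ^ 2 - Polynomial.C u : Polynomial ℤ_[ℓ])) = 2 * z := by
    intro z; simp [one_add_one_eq_two]
  obtain ⟨z, hz1, hz2, -, hz3⟩ := hensels_lemma (p := ℓ)
    (F := (Polynomial.X ^ 2 - Polynomial.C u : Polynomial ℤ_[ℓ])) (a := (1 : ℤ_[ℓ])) (by
      rw [hF, hF', one_pow, mul_one, norm_sub_rev]
      exact h1)
  rw [hF] at hz1
  rw [hF', mul_one] at hz2
  refine ⟨z, sub_eq_zero.1 hz1, hz2, fun z' h1' h2' => hz3 z' (by rw [hF, h1', sub_self]) ?_⟩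
  rw [hF', mul_one]
  exact h2'

end

theorem t_SQRT : S_SQRT := by
  classical
  intro ℓ hl Γ _ χ hχ
  let f : Γ →* ℤ_[ℓ] :=
    { toFun := fun g => ⟨(χ g : ℚ_[ℓ]), (hχ g).le⟩
      map_one' := Subtype.ext (by simp)
      map_mul' := fun a b => Subtype.ext (by
        have h1 : ((χ (a * b) : ℚ_[ℓ]ˣ) : ℚ_[ℓ]) = (χ a : ℚ_[ℓ]) * (χ b : ℚ_[ℓ]) := by
          rw [map_mul, Units.val_mul]
        exact h1) }
  have hf : ∀ g, ((f g : ℤ_[ℓ]) : ℚ_[ℓ]) = χ g := fun g => rfl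
  let F : Γ →* (ZMod (ℓ ^ 3))ˣ :=
    (((PadicInt.toZModPow (p := ℓ) 3).toMonoidHom).comp f).toHomUnits
  have hne : NeZero (ℓ ^ 3) := ⟨pow_ne_zero _ hl.out.ne_zero⟩
  have hfin : F.ker.FiniteIndex := Subgroup.finiteIndex_ker F
  have hker : ∀ g ∈ F.ker, ‖f g - 1‖ ≤ (ℓ : ℝ) ^ (-3 : ℤ) := by
    intro g hg
    have h1 : PadicInt.toZModPow (p := ℓ) 3 (f g) = 1 := by
      have h2 := congrArg Units.val (MonoidHom.mem_ker.1 hg)
      simpa [F] using h2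
    have h2 : f g - 1 ∈ RingHom.ker (PadicInt.toZModPow (p := ℓ) 3) := by
      rw [RingHom.mem_ker, map_sub, h1, map_one, sub_self]
    rw [PadicInt.ker_toZModPow] at h2
    exact (PadicInt.norm_le_pow_iff_mem_span_pow _ 3).2 h2
  choose r hr using fun g : F.ker => exists_root ℓ (f g) (hker g g.2)
  have hn2 : ‖(2 : ℤ_[ℓ])‖ ≤ 1 := PadicInt.norm_le_one _
  have hrn : ∀ g, ‖r g‖ = 1 := by
    intro g
    have h1 : ‖f g‖ = 1 := hχ g
    rw [← (hr g).1, norm_pow] at h1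
    exact (pow_eq_one_iff_of_nonneg (norm_nonneg _) (by norm_num)).1 h1
  let θ₀ : F.ker →* ℤ_[ℓ] :=
    { toFun := r
      map_one' := by
        symm
        refine (hr 1).2.2 1 ?_ ?_
        · rw [one_pow]; exact (map_one f).symm
        · rw [sub_self, norm_zero, norm_pos_iff]
          exact two_ne_zero
      map_mul' := fun a b => by
        symm
        refine (hr (a * b)).2.2 (r a * r b) ?_ ?_
        · rw [mul_pow, (hr a).1, (hr b).1]; exact (map_mul f _ _).symm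
        · have h1 : r a * r b - 1 = r a * (r b - 1) + (r a - 1) := by ring
          rw [h1]
          refine lt_of_le_of_lt (PadicInt.nonarchimedean _ _) (max_lt ?_ (hr a).2.1)
          rw [norm_mul, hrn, one_mul]
          exact (hr b).2.1 }
  let θ : F.ker →* ℚ_[ℓ]ˣ := ((PadicInt.Coe.ringHom (p := ℓ)).toMonoidHom.comp θ₀).toHomUnits
  have hθ : ∀ g, ((θ g : ℚ_[ℓ]ˣ) : ℚ_[ℓ]) = ((r g : ℤ_[ℓ]) : ℚ_[ℓ]) := fun g => rfl
  refine ⟨F.ker, hfin, θ, fun g => ?_, fun g => ?_⟩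
  · apply Units.ext
    rw [Units.val_pow_eq_pow_val, hθ, ← PadicInt.coe_pow, (hr g).1, hf]
  · rw [hθ]
    exact hrn g

end Pool.Agent.E8helper3.TX
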